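import Pool.Agent.Helper12.LTower
import Pool.Agent.Helper12.LGeo
import Pool.Agent.Helper12.LRat

/-!
# Every `d`-Matousek simplicial complex is `d`-Leray

Full affirmative answer to Q1 of MP_415069_co.
-/

namespace Pool.Agent.Results.MP_415069_co.MatousekLeray

open Finset
open Pool.Agent.Helper12.LC
set_option linter.unusedSectionVars false

universe u

/-- A finite abstract simplicial complex on the vertex set `V`: a family of finite subsets of `V`
closed under taking subsets and containing all singletons. -/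
structure Complex (V : Type u) where
  /-- the faces -/
  faces : Finset (Finset V)
  /-- closed under taking subsets -/
  down_closed : ∀ F ∈ faces, ∀ G, G ⊆ F → G ∈ faces
  /-- all vertices are faces -/
  singleton_mem : ∀ v : V, {v} ∈ faces

variable {V : Type u}

/-- The facets `M(K)`: inclusion-maximal faces. -/
def Complex.Facet (K : Complex V) : Type u :=
  {F : Finset V // F ∈ K.faces ∧ ∀ G ∈ K.faces, F ⊆ G → G = F}

noncomputable instance (K : Complex V) : DecidableEq K.Facet := Classical.decEq _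

noncomputable instance (K : Complex V) [Finite V] : Fintype K.Facet :=
  have : Finite (Finset V) := Finite.of_injective (fun s : Finset V => (s : Set V))
    Finset.coe_injective
  have : Finite K.Facet := inferInstanceAs
    (Finite {F : Finset V // F ∈ K.faces ∧ ∀ G ∈ K.faces, F ⊆ G → G = F})
  Fintype.ofFinite _

/-- The geometric realization `⋃_{F ∈ L} conv {e_u : u ∈ F}` in `ℝ^U` of a family `L` of finite
subsets of `U`. -/
def realization {U : Type u} [DecidableEq U] (L : Set (Finset U)) : Set (U → ℝ) :=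
  ⋃ F ∈ L, convexHull ℝ ((fun u => (Pi.single u (1 : ℝ) : U → ℝ)) '' (F : Set U))

/-- The support of a point of `ℝ^U`: the coordinates where it does not vanish. For a point `x` of
`|L|`, with `L` closed under subsets, it is the smallest face `F` of `L` with
`x ∈ conv {e_u : u ∈ F}`, see `supp_smallest`. -/
noncomputable def supp {U : Type u} [Fintype U] (x : U → ℝ) : Finset U :=
  open Classical in Finset.univ.filter (fun u => x u ≠ 0)

/-- The intersection of a set of facets. -/
noncomputable def Complex.inter (K : Complex V) [Fintype V] (α : Finset K.Facet) : Finset V :=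
  open Classical in Finset.univ.filter (fun v => ∀ F ∈ α, v ∈ F.1)

/-- The dual complex `K' = {α ⊆ M(K) : ⋂ α ≠ ∅}`. -/
def Complex.dual (K : Complex V) [Fintype V] : Set (Finset K.Facet) :=
  {α | (K.inter α).Nonempty}

/-- The configuration space `{(x,y) ∈ |K'|² : (⋂ supp x) ∪ (⋂ supp y) ∉ K}`. -/
def Complex.config (K : Complex V) [Fintype V] [DecidableEq V] :
    Set ((K.Facet → ℝ) × (K.Facet → ℝ)) :=
  {p | p.1 ∈ realization K.dual ∧ p.2 ∈ realization K.dual ∧
    K.inter (supp p.1) ∪ K.inter (supp p.2) ∉ K.faces}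

/-- `K` is `d`-Matousek: there is a continuous map `f` from the configuration space to the unit
sphere `S^(d-1)` of `ℝ^d` with `f (y, x) = - f (x, y)`. -/
def Complex.IsMatousek (K : Complex V) [Fintype V] [DecidableEq V] (d : ℕ) : Prop :=
  ∃ f : K.config → Metric.sphere (0 : EuclideanSpace ℝ (Fin d)) 1,
    Continuous f ∧ ∀ p q : K.config, q.1 = (p.1.2, p.1.1) → f q = - f p

/-- Faces of the induced subcomplex `K[W]`. -/
def Complex.induced (K : Complex V) [DecidableEq V] (W : Finset V) : Finset (Finset V) :=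
  K.faces.filter (fun F => F ⊆ W)

/-- A rational simplicial `m`-chain of the family of faces `L`, as a function on finite sets,
zero outside the faces of `L` with `m + 1` vertices. -/
def IsChain (L : Finset (Finset V)) (m : ℕ) (c : Finset V → ℚ) : Prop :=
  ∀ F, c F ≠ 0 → F ∈ L ∧ F.card = m + 1

/-- The simplicial boundary: the coefficient of `∂ c` at `G` is the sum over `v ∉ G` of
`(-1)^i` times the coefficient of `c` at `G ∪ {v}`, where `i = #{u ∈ G : u < v}` is the position
of `v` in `G ∪ {v}`. -/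
def boundary [Fintype V] [LinearOrder V] (c : Finset V → ℚ) (G : Finset V) : ℚ :=
  ∑ v ∈ Gᶜ, (-1) ^ (G.filter (fun u => u < v)).card * c (insert v G)

/-- `K` is `d`-Leray: for every `W ⊆ V` and `m ≥ d` the reduced rational simplicial homology of
`K[W]` vanishes in degree `m`, i.e. every `m`-cycle is the boundary of an `(m+1)`-chain. -/
def Complex.IsLeray (K : Complex V) [Fintype V] [LinearOrder V] (d : ℕ) : Prop :=
  ∀ W : Finset V, ∀ m : ℕ, d ≤ m → ∀ c : Finset V → ℚ, IsChain (K.induced W) m c →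
    boundary c = 0 → ∃ e : Finset V → ℚ, IsChain (K.induced W) (m + 1) e ∧ boundary e = c

/-! ### Sanity check for `supp` -/

theorem supp_subset_of_mem {U : Type u} [Fintype U] [DecidableEq U] {F : Finset U} {x : U → ℝ}
    (hx : x ∈ convexHull ℝ ((fun u => (Pi.single u (1 : ℝ) : U → ℝ)) '' (F : Set U))) :
    supp x ⊆ F := by
  classical
  intro u hu
  by_contra huF
  have hconv : Convex ℝ {y : U → ℝ | y u = 0} := by
    intro a ha b hb s t _ _ _
    simp only [Set.mem_ofPred_eq] at ha hb ⊢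
    simp [ha, hb]
  have hsub : ((fun u => (Pi.single u (1 : ℝ) : U → ℝ)) '' (F : Set U)) ⊆ {y : U → ℝ | y u = 0} := by
    rintro _ ⟨v, hv, rfl⟩
    have : u ≠ v := by rintro rfl; exact huF (by simpa using hv)
    simp [this]
  have h1 : x u = 0 := convexHull_min hsub hconv hx
  simp [supp] at hu
  exact hu h1

theorem mem_convexHull_of {U : Type u} [Fintype U] [DecidableEq U] {x : U → ℝ}
    (h0 : ∀ u, 0 ≤ x u) (h1 : ∑ u, x u = 1) {F : Finset U} (hF : supp x ⊆ F) :
    x ∈ convexHull ℝ ((fun u => (Pi.single u (1 : ℝ) : U → ℝ)) '' (F : Set U)) := by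
  classical
  have hz : ∀ u, u ∉ F → x u = 0 := by
    intro u hu
    by_contra h
    exact hu (hF (by simp [supp, h]))
  have h2 : x = ∑ u ∈ F, x u • (Pi.single u (1 : ℝ) : U → ℝ) := by
    funext v
    rw [Finset.sum_apply]
    by_cases hv : v ∈ F
    · rw [Finset.sum_eq_single v]
      · simp
      · intro u _ huv
        simp [Ne.symm huv]
      · intro h; exact absurd hv h
    · rw [Finset.sum_eq_zero, hz v hv]
      intro u hu
      have : v ≠ u := by rintro rfl; exact hv hu
      simp [this]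
  rw [h2]
  refine (convex_convexHull ℝ _).sum_mem (fun u _ => h0 u) ?_ (fun u hu => ?_)
  · rw [← h1]
    exact Finset.sum_subset (Finset.subset_univ F) (fun u _ hu => hz u hu)
  · exact subset_convexHull ℝ _ ⟨u, by simpa using hu, rfl⟩

theorem simplex_of_mem {U : Type u} [Fintype U] [DecidableEq U] {F : Finset U} {x : U → ℝ}
    (hx : x ∈ convexHull ℝ ((fun u => (Pi.single u (1 : ℝ) : U → ℝ)) '' (F : Set U))) :
    (∀ u, 0 ≤ x u) ∧ ∑ u, x u = 1 := by
  have hsub : ((fun u => (Pi.single u (1 : ℝ) : U → ℝ)) '' (F : Set U)) ⊆ stdSimplex ℝ U := by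
    rintro _ ⟨v, _, rfl⟩
    exact single_mem_stdSimplex ℝ v
  exact convexHull_min hsub (convex_stdSimplex ℝ U) hx

/-- For `L` closed under subsets and `x ∈ |L|`, `supp x` is the smallest face `F` of `L` with
`x ∈ conv {e_u : u ∈ F}`. -/
theorem supp_smallest {U : Type u} [Fintype U] [DecidableEq U] {L : Set (Finset U)}
    (hL : ∀ F ∈ L, ∀ G, G ⊆ F → G ∈ L) {x : U → ℝ} (hx : x ∈ realization L) :
    supp x ∈ L ∧
    x ∈ convexHull ℝ ((fun u => (Pi.single u (1 : ℝ) : U → ℝ)) '' (supp x : Set U)) ∧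
    ∀ F ∈ L, x ∈ convexHull ℝ ((fun u => (Pi.single u (1 : ℝ) : U → ℝ)) '' (F : Set U)) →
      supp x ⊆ F := by
  obtain ⟨F, hF, hxF⟩ := Set.mem_iUnion₂.mp hx
  obtain ⟨h0, h1⟩ := simplex_of_mem hxF
  exact ⟨hL F hF _ (supp_subset_of_mem hxF), mem_convexHull_of h0 h1 (Finset.Subset.refl _),
    fun G _ hG => supp_subset_of_mem hG⟩

/-! ### The geometric part -/

section geo

variable [Fintype V] [LinearOrder V] (K : Complex V)

/-- facets containing a given set -/
noncomputable def overF (A : Finset V) : Finset K.Facet :=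
  open Classical in Finset.univ.filter (fun F => A ⊆ F.1)

theorem overF_nonempty {A : Finset V} (hA : A ∈ K.faces) : (overF K A).Nonempty := by
  obtain ⟨B, hAB, hB⟩ := (Finset.finite_toSet K.faces).exists_le_maximal hA
  refine ⟨⟨B, hB.1, fun G hG hBG => ?_⟩, ?_⟩
  · exact Finset.Subset.antisymm (hB.2 hG hBG) hBG
  · exact Finset.mem_filter.mpr ⟨Finset.mem_univ _, hAB⟩

/-- barycenter of the facets over `A` -/
noncomputable def bar (A : Finset V) (F : K.Facet) : ℝ :=
  open Classical in if A ⊆ F.1 then ((overF K A).card : ℝ)⁻¹ else 0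

/-- the point of `|K'|²` attached to a pair of faces -/
noncomputable def rho (p : PP V) : (K.Facet → ℝ) × (K.Facet → ℝ) := (bar K p.1, bar K p.2)

/-- a closed cell -/
def DD (A B : Finset V) : Set ((K.Facet → ℝ) × (K.Facet → ℝ)) :=
  {p | (p.1 ∈ stdSimplex ℝ K.Facet ∧ ∀ F : K.Facet, ¬ A ⊆ F.1 → p.1 F = 0) ∧
    (p.2 ∈ stdSimplex ℝ K.Facet ∧ ∀ F : K.Facet, ¬ B ⊆ F.1 → p.2 F = 0)}

theorem convex_side (A : Finset V) :
    Convex ℝ {x : K.Facet → ℝ | x ∈ stdSimplex ℝ K.Facet ∧ ∀ F : K.Facet, ¬ A ⊆ F.1 → x F = 0} := by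
  intro a ha b hb s t hs ht hst
  refine ⟨convex_stdSimplex ℝ _ ha.1 hb.1 hs ht hst, fun F hF => ?_⟩
  simp [ha.2 F hF, hb.2 F hF]

theorem convex_DD (A B : Finset V) : Convex ℝ (DD K A B) := by
  have : DD K A B = {x : K.Facet → ℝ | x ∈ stdSimplex ℝ K.Facet ∧ ∀ F : K.Facet, ¬ A ⊆ F.1 → x F = 0}
      ×ˢ {x : K.Facet → ℝ | x ∈ stdSimplex ℝ K.Facet ∧ ∀ F : K.Facet, ¬ B ⊆ F.1 → x F = 0} := by
    ext p; rfl
  rw [this]
  exact (convex_side K A).prod (convex_side K B)

theorem compact_side (A : Finset V) :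
    IsCompact {x : K.Facet → ℝ | x ∈ stdSimplex ℝ K.Facet ∧
      ∀ F : K.Facet, ¬ A ⊆ F.1 → x F = 0} := by
  have h1 : {x : K.Facet → ℝ | x ∈ stdSimplex ℝ K.Facet ∧ ∀ F : K.Facet, ¬ A ⊆ F.1 → x F = 0}
      = stdSimplex ℝ K.Facet ∩ ⋂ F : K.Facet, ⋂ _ : ¬ A ⊆ F.1, {x | x F = 0} := by
    ext x; simp
  rw [h1]
  refine (isCompact_stdSimplex ℝ K.Facet).inter_right ?_
  refine isClosed_iInter fun F => isClosed_iInter fun _ => ?_
  exact isClosed_eq (continuous_apply F) continuous_const

theorem compact_DD (A B : Finset V) : IsCompact (DD K A B) := by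
  have : DD K A B = {x : K.Facet → ℝ | x ∈ stdSimplex ℝ K.Facet ∧ ∀ F : K.Facet, ¬ A ⊆ F.1 → x F = 0}
      ×ˢ {x : K.Facet → ℝ | x ∈ stdSimplex ℝ K.Facet ∧ ∀ F : K.Facet, ¬ B ⊆ F.1 → x F = 0} := by
    ext p; rfl
  rw [this]
  exact (compact_side K A).prod (compact_side K B)

theorem bar_mem {A B : Finset V} (hAB : A ⊆ B) (hB : B ∈ K.faces) :
    bar K B ∈ stdSimplex ℝ K.Facet ∧ ∀ F : K.Facet, ¬ A ⊆ F.1 → bar K B F = 0 := by
  classical
  refine ⟨⟨fun F => ?_, ?_⟩, fun F hF => ?_⟩
  · unfold bar; split_ifs <;> positivity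
  · have hpos : ((overF K B).card : ℝ) ≠ 0 := by
      have := Finset.card_pos.mpr (overF_nonempty K hB)
      positivity
    unfold bar
    rw [Finset.sum_ite, Finset.sum_const_zero, add_zero, Finset.sum_const, nsmul_eq_mul]
    have : (Finset.univ.filter (fun F : K.Facet => B ⊆ F.1)) = overF K B := by
      ext F; simp [overF]
    rw [this, mul_inv_cancel₀ hpos]
  · unfold bar
    rw [if_neg (fun h => hF (hAB.trans h))]

theorem rho_mem {A B : Finset V} {p : PP V} (hA : A ⊆ p.1) (hB : B ⊆ p.2) (h1 : p.1 ∈ K.faces)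
    (h2 : p.2 ∈ K.faces) : rho K p ∈ DD K A B :=
  ⟨bar_mem K hA h1, bar_mem K hB h2⟩

theorem side_realization {A : Finset V} (hA : A.Nonempty) {x : K.Facet → ℝ}
    (hx : x ∈ stdSimplex ℝ K.Facet ∧ ∀ F : K.Facet, ¬ A ⊆ F.1 → x F = 0) :
    x ∈ realization K.dual ∧ A ⊆ K.inter (supp x) := by
  have h1 : A ⊆ K.inter (supp x) := by
    intro v hv
    simp only [Complex.inter, Finset.mem_filter, Finset.mem_univ, true_and]
    intro F hF
    simp only [supp, Finset.mem_filter, Finset.mem_univ, true_and] at hF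
    by_contra h
    exact hF (hx.2 F (fun h' => h (h' hv)))
  refine ⟨?_, h1⟩
  refine Set.mem_iUnion₂.mpr ⟨supp x, hA.mono h1, ?_⟩
  exact mem_convexHull_of hx.1.1 hx.1.2 (Finset.Subset.refl _)

theorem DD_subset {A B : Finset V} (hA : A.Nonempty) (hB : B.Nonempty) (hAB : A ∪ B ∉ K.faces) :
    DD K A B ⊆ K.config := by
  intro p hp
  obtain ⟨h1, h2⟩ := side_realization K hA hp.1
  obtain ⟨h3, h4⟩ := side_realization K hB hp.2
  exact ⟨h1, h3, fun h => hAB (K.down_closed _ h _ (Finset.union_subset_union h2 h4))⟩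

theorem DD_dist {A B : Finset V} {p q : (K.Facet → ℝ) × (K.Facet → ℝ)} (hp : p ∈ DD K A B)
    (hq : q ∈ DD K A B) : dist p q ≤ 1 := by
  have aux : ∀ x y : K.Facet → ℝ, x ∈ stdSimplex ℝ K.Facet → y ∈ stdSimplex ℝ K.Facet →
      dist x y ≤ 1 := by
    intro x y hx hy
    rw [dist_pi_le_iff zero_le_one]
    intro F
    have h1 : ∀ z : K.Facet → ℝ, z ∈ stdSimplex ℝ K.Facet → 0 ≤ z F ∧ z F ≤ 1 := by
      intro z hz
      refine ⟨hz.1 F, ?_⟩
      rw [← hz.2]
      exact Finset.single_le_sum (fun G _ => hz.1 G) (Finset.mem_univ F)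
    rw [Real.dist_eq, abs_le]
    have h2 := h1 x hx
    have h3 := h1 y hy
    constructor <;> linarith [h2.1, h2.2, h3.1, h3.2]
  rw [Prod.dist_eq]
  exact max_le (aux _ _ hp.1.1 hq.1.1) (aux _ _ hp.2.1 hq.2.1)

theorem rho_swap (p : PP V) : rho K p.swap = (rho K p).swap := rfl

theorem bary_map_swap (w : List ((K.Facet → ℝ) × (K.Facet → ℝ))) :
    bary (w.map Prod.swap) = (bary w).swap := by
  unfold bary
  have h : ∀ w : List ((K.Facet → ℝ) × (K.Facet → ℝ)), (w.map Prod.swap).sum = w.sum.swap := by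
    intro w
    induction w with
    | nil => rfl
    | cons a w ih => simp only [List.map_cons, List.sum_cons, ih]; rfl
  rw [h, List.length_map]
  rfl

end geo

/-- The invariant cochains produced by a Matousek map. -/
theorem exists_cochains [Fintype V] [LinearOrder V] (K : Complex V) {d m : ℕ} (hdm : d ≤ m)
    (hm : 1 ≤ m) (hMat : K.IsMatousek d) :
    ∃ φ : ℕ → List (PP V) → F2,
      (∀ l, GS K.faces l → InE K.faces l → l.length = 1 → φ 0 l + φ 0 (sw l) = 1) ∧
      (∀ i, i + 1 < m → ∀ l, GS K.faces l → InE K.faces l → l.length = i + 2 →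
        φ (i + 1) l + φ (i + 1) (sw l) = dl (φ i) l) ∧
      (∀ l, GS K.faces l → InE K.faces l → l.length = m + 1 → dl (φ (m - 1)) l = 0) := by
  classical
  obtain ⟨f, hf, hfs⟩ := hMat
  -- the map as a total function with values in coordinate vectors
  let g : (K.Facet → ℝ) × (K.Facet → ℝ) → EuclideanSpace ℝ (Fin d) := fun p =>
    if h : p ∈ K.config then (f ⟨p, h⟩ : EuclideanSpace ℝ (Fin d)) else 0
  have hg : ∀ p (h : p ∈ K.config), g p = (f ⟨p, h⟩ : EuclideanSpace ℝ (Fin d)) := by
    intro p h; simp only [g]; rw [dif_pos h]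
  have hgnorm : ∀ p ∈ K.config, ‖g p‖ = 1 := by
    intro p h
    rw [hg p h]
    simp
  have hswap_mem : ∀ p ∈ K.config, p.swap ∈ K.config := by
    rintro p ⟨h1, h2, h3⟩
    refine ⟨h2, h1, ?_⟩
    rw [Finset.union_comm]; exact h3
  have hgswap : ∀ p ∈ K.config, g p.swap = - g p := by
    intro p h
    rw [hg p h, hg _ (hswap_mem p h), hfs ⟨p, h⟩ ⟨p.swap, hswap_mem p h⟩ rfl]
    rfl
  have hgcont : ContinuousOn g K.config := by
    rw [continuousOn_iff_continuous_domRestrict]
    have : K.config.domRestrict g = fun p => (f p : EuclideanSpace ℝ (Fin d)) := by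
      funext p
      exact hg p.1 p.2
    rw [this]
    exact continuous_subtype_val.comp hf
  set ε : ℝ := ((d : ℝ) + 1)⁻¹ with hε
  have hεpos : 0 < ε := by positivity
  have hbig : ∀ p ∈ K.config, ∃ k : Fin d, ε ≤ |g p k| := by
    intro p hp
    by_contra hcon
    push Not at hcon
    have h1 : ‖g p‖ ^ 2 = 1 := by rw [hgnorm p hp]; norm_num
    rw [EuclideanSpace.norm_sq_eq] at h1
    have h2 : ∑ k : Fin d, ‖(g p) k‖ ^ 2 ≤ ∑ _k : Fin d, ε ^ 2 := by
      refine Finset.sum_le_sum fun k _ => ?_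
      rw [Real.norm_eq_abs]
      exact pow_le_pow_left₀ (abs_nonneg _) (hcon k).le 2
    rw [h1, Finset.sum_const, Finset.card_univ, Fintype.card_fin, nsmul_eq_mul] at h2
    have h3 : (d : ℝ) * ε ^ 2 < 1 := by
      rw [hε, inv_pow, ← div_eq_mul_inv, div_lt_one (by positivity)]
      nlinarith [Nat.cast_nonneg (α := ℝ) d]
    linarith
  -- uniform continuity on all cells
  have hunif : ∀ p : PP V, ∃ δ > 0, p.1.Nonempty → p.2.Nonempty → p.1 ∪ p.2 ∉ K.faces →
      ∀ x ∈ DD K p.1 p.2, ∀ y ∈ DD K p.1 p.2, dist x y < δ → dist (g x) (g y) < ε := by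
    intro p
    by_cases hp : p.1.Nonempty ∧ p.2.Nonempty ∧ p.1 ∪ p.2 ∉ K.faces
    · have h1 : UniformContinuousOn g (DD K p.1 p.2) :=
        (compact_DD K p.1 p.2).uniformContinuousOn_of_continuous
          (hgcont.mono (DD_subset K hp.1 hp.2.1 hp.2.2))
      obtain ⟨δ, hδ, h2⟩ := Metric.uniformContinuousOn_iff.mp h1 ε hεpos
      exact ⟨δ, hδ, fun _ _ _ => h2⟩
    · exact ⟨1, one_pos, fun h1 h2 h3 => absurd ⟨h1, h2, h3⟩ hp⟩
  choose δ hδ hδ' using hunif
  obtain ⟨δ0, hδ0, hδ0'⟩ : ∃ δ0 : ℝ, 0 < δ0 ∧ ∀ p : PP V, δ0 ≤ δ p := by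
    have hne : (Finset.univ : Finset (PP V)).Nonempty := Finset.univ_nonempty
    refine ⟨Finset.univ.inf' hne δ, ?_, fun p => ?_⟩
    · exact (Finset.lt_inf'_iff hne).mpr fun p _ => hδ p
    · exact Finset.inf'_le _ (Finset.mem_univ p)
  obtain ⟨N, hN⟩ : ∃ N : ℕ, (1 - (((m + 1 : ℕ)) : ℝ)⁻¹) ^ N < δ0 := by
    refine exists_pow_lt_of_lt_one hδ0 ?_
    have : (0 : ℝ) < (((m + 1 : ℕ)) : ℝ)⁻¹ := by positivity
    linarith
  let b : ℕ → (K.Facet → ℝ) × (K.Facet → ℝ) → F2 := fun k p => bk k (fun j => g p j)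
  have hbswap : ∀ k, ∀ p ∈ K.config, b k p.swap = b k p + 1 := by
    intro k p hp
    have h1 : (fun j => g p.swap j) = - (fun j => g p j) := by
      rw [hgswap p hp]; rfl
    have h2 : (fun j => g p j) ≠ 0 := by
      intro h
      have h3 : g p = 0 := by
        ext j; exact congrFun h j
      have := hgnorm p hp
      rw [h3] at this
      simp at this
    simp only [b]
    rw [h1, bk_neg k h2]
  -- cells spanned by far words
  have hcell : ∀ l : List (PP V), GS K.faces l → InE K.faces l → l ≠ [] →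
      ∃ A B : Finset V, A.Nonempty ∧ B.Nonempty ∧ A ∪ B ∉ K.faces ∧
        ∀ x ∈ l.map (rho K), x ∈ DD K A B := by
    intro l hgl hE hne
    set e := l.getLast hne with he
    have hel : e ∈ l := List.getLast_mem hne
    refine ⟨e.1, e.2, (hgl.2 e hel).1.2, (hgl.2 e hel).2.2, hE e hel, ?_⟩
    intro x hx
    obtain ⟨p, hp, rfl⟩ := List.mem_map.mp hx
    have hle : e.1 ⊆ p.1 ∧ e.2 ⊆ p.2 := by
      have h1 : l = l.dropLast ++ [e] := (List.dropLast_append_getLast hne).symm
      rw [h1] at hp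
      rcases List.mem_append.mp hp with hp | hp
      · have h2 := hgl.1
        rw [h1] at h2
        exact (List.pairwise_append.mp h2).2.2 p hp e (by simp)
      · simp only [List.mem_singleton] at hp
        rw [hp]
        exact ⟨Finset.Subset.refl _, Finset.Subset.refl _⟩
    exact rho_mem K hle.1 hle.2 (hgl.2 p hp).1.1 (hgl.2 p hp).2.1
  let φ : ℕ → List (PP V) → F2 := fun i l =>
    pr (iter bary N (i + 1) (l.map (rho K))) (Phi b 0)
  have hsum : ∀ i l, GS K.faces l → InE K.faces l → l.length = i + 1 →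
      φ i l + φ i (sw l) = pr (iter bary N (i + 1) (l.map (rho K))) (WW b 0) := by
    intro i l hgl hE hlen
    obtain ⟨A, B, hA, hB, hAB, hD⟩ := hcell l hgl hE (by rintro rfl; simp at hlen)
    have h1 : (sw l).map (rho K) = (l.map (rho K)).map Prod.swap := by
      simp [sw, Function.comp_def, rho_swap]
    simp only [φ]
    rw [h1, iter_map bary bary Prod.swap (bary_map_swap K), pr_map, ← pr_add]
    refine pr_congr fun x hx => ?_
    refine Phi_add_map ?_ 0
    intro k p hp
    exact hbswap k p (DD_subset K hA hB hAB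
      (mem_iter_convex (convex_DD K A B) (by simp [hlen]) hD hx p hp))
  refine ⟨φ, ?_, ?_, ?_⟩
  · intro l hgl hE hlen
    rw [hsum 0 l hgl hE hlen]
    obtain ⟨e, rfl⟩ := List.length_eq_one_iff.mp hlen
    simp only [List.map_cons, List.map_nil, zero_add]
    rw [iter_singleton]
    simp [WW]
  · intro i _ l hgl hE hlen
    rw [hsum (i + 1) l hgl hE hlen]
    have h1 : dl (φ i) l = dl (fun v => pr (iter bary N (i + 1) v) (Phi b 0)) (l.map (rho K)) := by
      rw [dl_map]
    rw [h1, ← pr_iter_dl]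
    refine pr_congr fun x hx => ?_
    have hx' := mem_iter_length bary (by simp [hlen]) hx
    exact (dl_Phi b 0 x (by omega)).symm
  · intro l hgl hE hlen
    obtain ⟨k, rfl⟩ : ∃ k, m = k + 1 := ⟨m - 1, by omega⟩
    simp only [Nat.add_sub_cancel]
    have h1 : dl (φ k) l = dl (fun v => pr (iter bary N (k + 1) v) (Phi b 0)) (l.map (rho K)) := by
      rw [dl_map]
    rw [h1, ← pr_iter_dl]
    obtain ⟨A, B, hA, hB, hAB, hD⟩ := hcell l hgl hE (by rintro rfl; simp at hlen)
    refine pr_eq_zero fun x hx => ?_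
    have hlen' : (l.map (rho K)).length = k + 1 + 1 := by simp [hlen]
    have hx' := mem_iter_length bary hlen' hx
    rw [dl_Phi b 0 x (by omega)]
    have hxD := mem_iter_convex (convex_DD K A B) hlen' hD hx
    have hxdist := mem_iter_dist (by omega) hlen' zero_le_one
      (fun p hp q hq => DD_dist K (hD p hp) (hD q hq)) hx
    have hxne : x ≠ [] := by rintro rfl; simp at hx'
    obtain ⟨p0, hp0⟩ := List.exists_mem_of_ne_nil x hxne
    obtain ⟨j, hj⟩ := hbig p0 (DD_subset K hA hB hAB (hxD p0 hp0))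
    have hclose : ∀ q ∈ x, |g q j - g p0 j| < ε := by
      intro q hq
      have h3 : dist q p0 < δ (A, B) := by
        refine lt_of_le_of_lt (hxdist q hq p0 hp0) (lt_of_lt_of_le ?_ (hδ0' (A, B)))
        rw [mul_one]; exact hN
      have h4 := hδ' (A, B) hA hB hAB q (hxD q hq) p0 (hxD p0 hp0) h3
      refine lt_of_le_of_lt ?_ h4
      rw [dist_eq_norm]
      have h5 := EuclideanSpace.norm_sq_eq (g q - g p0)
      have h6 : ‖(g q - g p0) j‖ ^ 2 ≤ ∑ i, ‖(g q - g p0) i‖ ^ 2 :=
        Finset.single_le_sum (f := fun i => ‖(g q - g p0) i‖ ^ 2) (fun i _ => by positivity)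
          (Finset.mem_univ j)
      rw [← h5] at h6
      have h7 := abs_le_of_sq_le_sq h6 (norm_nonneg _)
      have h8 : (g q - g p0) j = g q j - g p0 j := rfl
      rw [h8, Real.norm_eq_abs, abs_abs] at h7
      exact h7
    refine WW_eq_zero (j := j) (Nat.zero_le _) ?_ ?_
    · have := j.2
      rw [hx']; omega
    · intro p hp q hq
      simp only [b]
      have h1 := bk_eq (k := j) (x := fun i => g p0 i) (y := fun i => g p i) hj (hclose p hp)
      have h2 := bk_eq (k := j) (x := fun i => g p0 i) (y := fun i => g q i) hj (hclose q hq)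
      rw [h1, h2]

/-- Vanishing of homology over `ZMod 2` of induced subcomplexes. -/
theorem acyclic_two [Fintype V] [LinearOrder V] (K : Complex V) {d : ℕ} (hd : 1 ≤ d)
    (hMat : K.IsMatousek d) (W : Finset V) (m : ℕ) (hm : d ≤ m) : Acyc2 (K.induced W) m := by
  have hK : ∀ F ∈ K.induced W, ∀ G ⊆ F, G ∈ K.induced W := by
    intro F hF G hG
    simp only [Complex.induced, Finset.mem_filter] at hF ⊢
    exact ⟨K.down_closed F hF.1 G hG, hG.trans hF.2⟩
  -- downward induction
  have key : ∀ t m : ℕ, d ≤ m → Fintype.card V ≤ m + t → Acyc2 (K.induced W) m := by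
    intro t
    induction t with
    | zero =>
      intro m _ hcard z hz _
      refine ⟨fun _ => 0, fun _ _ => rfl, fun G => ?_⟩
      rw [Finset.sum_const_zero]
      refine (hz G ?_).symm
      rintro ⟨_, h⟩
      have := Finset.card_le_univ G
      omega
    | succ t ih =>
      intro m hdm hcard
      rcases isEmpty_or_nonempty V with hV | hV
      · have h0 : Fintype.card V = 0 := Fintype.card_eq_zero
        exact ih m hdm (by omega)
      obtain ⟨φ, h0, hi, hlast⟩ := exists_cochains K hdm (by omega) hMat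
      have hGS : ∀ l, GS (K.induced W) l → GS K.faces l := by
        intro l hl
        refine ⟨hl.1, fun p hp => ?_⟩
        have := hl.2 p hp
        simp only [Complex.induced, Finset.mem_filter] at this
        exact ⟨⟨this.1.1.1, this.1.2⟩, ⟨this.2.1.1, this.2.2⟩⟩
      have hInE : ∀ l, GS (K.induced W) l → InE (K.induced W) l → InE K.faces l := by
        intro l hl hE p hp hcon
        apply hE p hp
        have := hl.2 p hp
        simp only [Complex.induced, Finset.mem_filter] at this ⊢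
        exact ⟨hcon, Finset.union_subset this.1.1.2 this.2.1.2⟩
      refine core hK (by omega) φ ?_ ?_ ?_ ?_
      · exact fun l hl hE hlen => h0 l (hGS l hl) (hInE l hl hE) hlen
      · exact fun i him l hl hE hlen => hi i him l (hGS l hl) (hInE l hl hE) hlen
      · exact fun l hl hE hlen => hlast l (hGS l hl) (hInE l hl hE) hlen
      · exact fun n hn => ih n (by omega) (by omega)
  exact key (Fintype.card V) m hm (by omega)

/-- **Every `d`-Matousek simplicial complex is `d`-Leray.** -/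
theorem result {V : Type u} [Fintype V] [LinearOrder V] (K : Complex V) (d : ℕ) (hd : 1 ≤ d)
    (hMat : K.IsMatousek d) : K.IsLeray d := by
  intro W m hm c hc hbd
  have hK : ∀ F ∈ K.induced W, ∀ G ⊆ F, G ∈ K.induced W := by
    intro F hF G hG
    simp only [Complex.induced, Finset.mem_filter] at hF ⊢
    exact ⟨K.down_closed F hF.1 G hG, hG.trans hF.2⟩
  obtain ⟨e, he, he'⟩ := acycR_rat_of_two hK (acyclic_two K hd hMat W m hm) c
    (fun F hF => by by_contra h; exact hF (hc F h)) (fun G => congrFun hbd G)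
  exact ⟨e, fun F hF => by by_contra h; exact hF (he F h), funext he'⟩

end Pool.Agent.Results.MP_415069_co.MatousekLeray
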